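import Pool.Agent.Work.MP_adbfe6_an.An.Final

/-!
# MP_adbfe6_an: skew products over Anosov diffeomorphisms, without centre bunching
-/

namespace Pool.Agent.Results.MP_adbfe6_an.AnosovBase

open MeasureTheory Pool.Agent.Work.MP_adbfe6_an.Ext Pool.Agent.Work.MP_adbfe6_an.An

/-- Essential accessibility implies ergodicity, and even mixing, for partially hyperbolic skew
products `f (x, y) = (T x, a x • y)` over a homeomorphism `T` of a compact space with an absolutely
continuous local product structure of stable and unstable plaques (for example over every volume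
preserving Anosov diffeomorphism of class `C²`), with fibre maps in a locally compact group `G` of
measure preserving homeomorphisms of `N`. There is no bunching condition. -/
theorem result {X P Q G N : Type} [MetricSpace X] [CompactSpace X] [MeasurableSpace X]
    [BorelSpace X] [TopologicalSpace P] [SecondCountableTopology P] [MeasurableSpace P]
    [BorelSpace P] [TopologicalSpace Q] [SecondCountableTopology Q] [MeasurableSpace Q]
    [BorelSpace Q] [Group G] [TopologicalSpace G] [IsTopologicalGroup G] [LocallyCompactSpace G]
    [MulAction G N] [MetricSpace N] [CompactSpace N] [MeasurableSpace N] [BorelSpace N]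
    [ContinuousSMul G N] {m : Measure X} [IsProbabilityMeasure m] {p : Measure P} [SigmaFinite p]
    [p.IsOpenPosMeasure] {q : Measure Q} [SigmaFinite q] [q.IsOpenPosMeasure] {ν : Measure N}
    [IsProbabilityMeasure ν] {b : ℕ → P × Q → X} {T : X ≃ₜ X} {cs cu : X → ℝ} {a : X → G}
    (hB : HypBase m p q b T cs cu) (hF : Fibre (G := G) N ν) (hPH : PHyp N T a cs cu)
    (hE : Pool.Agent.Work.MP_adbfe6_an.An.EssAcc T a cs cu (m.prod ν)) :
    Ergodic (skew T a : X × N → X × N) (m.prod ν) ∧
      Mixing (skew T a : X × N → X × N) (m.prod ν) :=
  main X P Q G N m p q ν b T cs cu a hB hF hPH hE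

end Pool.Agent.Results.MP_adbfe6_an.AnosovBase
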