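import Pool.Agent.Work.MP_adbfe6_an.HA.Main

/-!
# MP_adbfe6_an: Hölder accessibility near one point replaces centre bunching
-/

namespace Pool.Agent.Results.MP_adbfe6_an.HolderAccessible

open MeasureTheory Pool.Agent.SKP

/-- Essential accessibility implies ergodicity, and mixing, for partially hyperbolic skew products
`f (x, z) = (A x, g x z)` over a hyperbolic automorphism `A` of the torus with fibre a compact
group `N` (for example a torus), which need not be centre bunched, if `f` is approximately Hölder
accessible with exponent `η` near one point `p` and `(1 + τ) η + θ > 1`. Here `θ ∈ (0, 1]` measures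
how far `f` is from being centre bunched (`θ = 1`: bunched; every dominated `f` has some `θ > 0`),
and either `τ = 0`, or the fibre through `p` is fixed and bunched with the exponent `τ`. -/
theorem result {d : ℕ} {N : Type} [Group N] [MetricSpace N] [CompactSpace N]
    [IsIsometricSMul N N] [IsIsometricSMul Nᵐᵒᵖ N] [MeasurableSpace N] [BorelSpace N]
    (ν : Measure N) [IsProbabilityMeasure ν] [ν.IsMulLeftInvariant] (hν : UnifDoubling ν)
    (A : HypAut d) (D : Fibres A N) (K : ℝ) (hK : SecondDiff D.g K)
    (hg : ∀ x, MeasurePreserving (D.g x) ν ν) (θ η τ : ℝ) (hθ0 : 0 < θ) (hθ1 : θ ≤ 1)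
    (hs : D.κs * D.κu ^ θ * A.a < 1) (hu : D.κu * D.κs ^ θ * A.b < 1) (p : Tor d × N)
    (hτ : τ = 0 ∨ LocFibre A D.g p.1 θ τ) (hη : 0 < η) (hητ : 1 < (1 + τ) * η + θ)
    (hp : ApproxHolderAccessibleAt A D.g p η) (hE : EssAccessible A D.g (volume.prod ν)) :
    Ergodic (skew A.M D.g) (volume.prod ν) ∧ Mix (skew A.M D.g) (volume.prod ν) :=
  HA.main ν hν A D K hK θ η τ hθ0 hθ1 hs hu p hτ hη hητ hg hE hp

end Pool.Agent.Results.MP_adbfe6_an.HolderAccessible
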