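import Pool.Agent.Work.MP_adbfe6_an.SK.Lvl

/-!
# MP_adbfe6_an: towers with bunching only level by level
-/

namespace Pool.Agent.Results.MP_adbfe6_an.StepBunchedTowers

open MeasureTheory Pool.Agent.SKP

/-- Essential accessibility implies ergodicity, and mixing, for partially hyperbolic skew products
`f (x, z) = (A x, g x z)` over a hyperbolic automorphism `A` of the torus whose fibre is a product
`N 0 × ... × N (k-1)` of compact groups (for example tori), such that the level `i` of `g x z`
depends only on the levels `≤ i` of `z`. Every level is bunched, or affine (`K i = 0`), but the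
centre as a whole need not be bunched. -/
theorem result {d k : ℕ} {N : Fin k → Type} [∀ i, Group (N i)] [∀ i, MetricSpace (N i)]
    [∀ i, CompactSpace (N i)] [∀ i, IsIsometricSMul (N i) (N i)]
    [∀ i, IsIsometricSMul (N i)ᵐᵒᵖ (N i)] [∀ i, MeasurableSpace (N i)] [∀ i, BorelSpace (N i)]
    (ν : ∀ i, Measure (N i)) [∀ i, IsProbabilityMeasure (ν i)] (hν : ∀ i, UnifDoubling (ν i))
    (A : HypAut d) (D : Fibres A (∀ i, N i)) (L : Levels A D.g)
    (hg : ∀ x, MeasurePreserving (D.g x) (Measure.pi ν) (Measure.pi ν))
    (hE : EssAccessible A D.g (volume.prod (Measure.pi ν))) :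
    Ergodic (skew A.M D.g) (volume.prod (Measure.pi ν)) ∧
      Mix (skew A.M D.g) (volume.prod (Measure.pi ν)) :=
  towers_main ν hν A D L hg hE

end Pool.Agent.Results.MP_adbfe6_an.StepBunchedTowers
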