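import Pool.Agent.Work.MP_adbfe6_an.SG.Final

/-!
# MP_adbfe6_an: nonlinear surface fibres with nonzero exponents, without centre bunching
-/

namespace Pool.Agent.Results.MP_adbfe6_an.SurfaceFibres

open MeasureTheory Pool.Agent.Work.MP_adbfe6_an.Ext Pool.Agent.Work.MP_adbfe6_an.An
  Pool.Agent.Work.MP_adbfe6_an.SG

/-- Let `f (x, y) = (T x, g x y)` be a partially hyperbolic skew product over a homeomorphism `T` of a
compact space with an absolutely continuous local product structure of stable and unstable plaques
(for example over a volume preserving Anosov diffeomorphism of class `C²`), whose fibre maps are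
arbitrary measure preserving homeomorphisms. There is no bunching condition. If `f` is essentially
accessible, then an invariant set `Ω` with a fibrewise Pesin structure (for example, if the fibre is
a surface, the set of the points with nonzero centre exponents) contains at most one ergodic
component of `f` and of every iterate of `f`; if `Ω` has full measure, then `f` is ergodic and
mixing. -/
theorem result {X P Q N : Type} [MetricSpace X] [CompactSpace X] [MeasurableSpace X]
    [BorelSpace X] [TopologicalSpace P] [SecondCountableTopology P] [MeasurableSpace P]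
    [BorelSpace P] [TopologicalSpace Q] [SecondCountableTopology Q] [MeasurableSpace Q]
    [BorelSpace Q] [MetricSpace N] [CompactSpace N] [MeasurableSpace N] [BorelSpace N]
    {m : Measure X} [IsProbabilityMeasure m] {p : Measure P} [SigmaFinite p]
    [p.IsOpenPosMeasure] {q : Measure Q} [SigmaFinite q] [q.IsOpenPosMeasure] {ν : Measure N}
    [IsProbabilityMeasure ν] [ν.IsOpenPosMeasure] {b : ℕ → P × Q → X} {T : X ≃ₜ X}
    {cs cu : X → ℝ} {g : X → N ≃ₜ N} {Ω : Set (X × N)} {Wu Ws : X × N → Set N}
    (hB : HypBase m p q b T cs cu) (hg : ∀ x, MeasurePreserving (g x) ν ν)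
    (hPH : PHyp N T g cs cu) (hE : EssAcc T g cs cu (m.prod ν))
    (hW : PesinFibres T g m ν Ω Wu Ws) :
    (∀ k > 0, ∀ S ⊆ Ω, MeasurableSet S → (skew T g)^[k] ⁻¹' S = S →
      (m.prod ν) S = 0 ∨ (m.prod ν) (Ω \ S) = 0) ∧
    ((m.prod ν) Ωᶜ = 0 → Ergodic (skew T g : X × N → X × N) (m.prod ν) ∧
      Mixing (skew T g : X × N → X × N) (m.prod ν)) :=
  final hB hg hPH hE hW

end Pool.Agent.Results.MP_adbfe6_an.SurfaceFibres
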